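import Pool.Agent.helper61.CSW.W.SpecW

/-!
# csw:TD2 (MP_70a088_an): the transfer operator on double poles (helper96)
-/

set_option autoImplicit false

open Complex Metric Set Filter Topology MeasureTheory
open YPPS (fd fdd pre TT CV IsCyc rho Exact)
open MPS (BB)
open Pool.Agent.helper98.ILF (juliaSet fatouSet)

noncomputable section

open CSS (SE SV JJ)

namespace YW

theorem TD2_dc3 (p : ℂ) : YPPS.DC (fun x : ℂ => 1 / (x - p) ^ 3) := by
  refine ⟨⟨{p}, Set.finite_singleton p, ?_⟩, 2 * ‖p‖ + 1, ?_⟩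
  · intro x hx
    have hx' : x - p ≠ 0 := sub_ne_zero.2 hx
    have : DifferentiableAt ℂ (fun x : ℂ => 1 / (x - p) ^ 3) x := by
      refine DifferentiableAt.div (differentiableAt_const _) ?_ (pow_ne_zero 3 hx')
      exact (differentiableAt_id.sub_const p).pow 3
    exact this.differentiableWithinAt
  · have hI : Integrable (fun x : ℂ => 8 * (1 + ‖x‖) ^ (-(3 : ℝ))) := by
      refine (integrable_one_add_norm (E := ℂ) (r := 3) ?_).const_mul 8
      rw [Complex.finrank_real_complex]; norm_num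
    refine Integrable.mono' hI.integrableOn ?_ ?_
    · refine Measurable.aestronglyMeasurable ?_
      exact measurable_const.div ((measurable_id.sub_const p).pow_const 3)
    · refine (ae_restrict_iff' (measurableSet_closedBall.compl)).2 (Eventually.of_forall fun x hx => ?_)
      have hx1 : 2 * ‖p‖ + 1 < ‖x‖ := by
        have := hx
        rw [Set.mem_compl_iff, mem_closedBall, dist_zero_right, not_le] at this
        exact this
      have h1 : ‖x‖ - ‖p‖ ≤ ‖x - p‖ := norm_sub_norm_le x p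
      have h2 : (1 + ‖x‖) / 2 ≤ ‖x - p‖ := by linarith
      have h3 : 0 < 1 + ‖x‖ := by positivity
      rw [norm_div, norm_one, norm_pow, Real.rpow_neg h3.le]
      have h4 : ((1 + ‖x‖) / 2) ^ 3 ≤ ‖x - p‖ ^ 3 := pow_le_pow_left₀ (by positivity) h2 3
      have h5 : (1 + ‖x‖) ^ (3 : ℝ) = (1 + ‖x‖) ^ 3 := by
        rw [← Real.rpow_natCast]; norm_num
      rw [h5]
      calc 1 / ‖x - p‖ ^ 3 ≤ 1 / ((1 + ‖x‖) / 2) ^ 3 := one_div_le_one_div_of_le (by positivity) h4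
        _ = 8 * ((1 + ‖x‖) ^ 3)⁻¹ := by
          field_simp
          try norm_num

theorem TD2_sep (f : SE) {ι : Type} (s : Finset ι) (p : ι → ℂ) (z : ℂ) (hz : ∀ i ∈ s, z ≠ f.eval (p i)) :
    ∃ η > (0 : ℝ), ∀ i ∈ s, ∀ y ∈ pre f z, 2 * η ≤ ‖y - p i‖ := by
  have key : ∀ᶠ η in 𝓝[>] (0 : ℝ), ∀ i ∈ s, ∀ y ∈ pre f z, 2 * η ≤ ‖y - p i‖ := by
    refine (Finset.eventually_all s).2 fun i hi => ?_
    have hc : ContinuousAt (fun w : ℂ => f.eval w) (p i) := (f.dif (p i)).continuousAt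
    have h1 : ∀ᶠ w in 𝓝 (p i), f.eval w ≠ z := hc.eventually_ne (hz i hi).symm
    obtain ⟨δ, hδ, h2⟩ := Metric.eventually_nhds_iff.1 h1
    have h3 : Set.Ioc (0 : ℝ) (δ / 2) ∈ 𝓝[>] (0 : ℝ) := Ioc_mem_nhdsGT (by positivity)
    filter_upwards [h3] with η hη y hy
    by_contra hlt
    push Not at hlt
    refine h2 (y := y) ?_ hy
    rw [dist_eq_norm]
    have := hη.2
    linarith
  obtain ⟨η, h1, h2⟩ := (key.and self_mem_nhdsWithin).exists
  exact ⟨η, h2, h1⟩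

/-- the differential with simple poles. -/
def TD2_B {ι : Type} (s : Finset ι) (A G p : ι → ℂ) (h x : ℂ) : ℂ :=
  ∑ i ∈ s, ((A i / h) / (x - (p i + h)) + (G i - A i / h) / (x - p i))

/-- the limit. -/
def TD2_B0 {ι : Type} (s : Finset ι) (A G p : ι → ℂ) (x : ℂ) : ℂ :=
  ∑ i ∈ s, (A i / (x - p i) ^ 2 + G i / (x - p i))

theorem TD2_diff {ι : Type} (s : Finset ι) (A G p : ι → ℂ) (h x : ℂ) (hh : h ≠ 0) (h1 : ∀ i ∈ s, x - p i ≠ 0)
    (h2 : ∀ i ∈ s, x - (p i + h) ≠ 0) :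
    TD2_B s A G p h x - TD2_B0 s A G p x = ∑ i ∈ s, A i * h / ((x - (p i + h)) * (x - p i) ^ 2) := by
  unfold TD2_B TD2_B0
  rw [← Finset.sum_sub_distrib]
  refine Finset.sum_congr rfl fun i hi => ?_
  have e1 := h1 i hi
  have e2 := h2 i hi
  field_simp
  ring

theorem TD2_sum {ι : Type} (s : Finset ι) (A G p : ι → ℂ) (h : ℂ) : TD2_B s A G p h =
    fun x => ∑ j ∈ s.disjSum s, (Sum.elim (fun i => A i / h) (fun i => G i - A i / h) j) /
      (x - (Sum.elim (fun i => p i + h) p j)) := by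
  funext x
  rw [Finset.sum_disjSum, ← Finset.sum_add_distrib]
  rfl

theorem TD2_int (hC : CSS.TRC_stmt) {ι : Type} (s : Finset ι) (A G p : ι → ℂ) (hG : ∑ i ∈ s, G i = 0)
    (hM : ∑ i ∈ s, (A i + G i * p i) = 0) (h : ℂ) (hh : h ≠ 0) : Integrable (TD2_B s A G p h) := by
  rw [TD2_sum]
  refine hC (ι ⊕ ι) (s.disjSum s) _ _ ?_ ?_
  · rw [Finset.sum_disjSum, ← Finset.sum_add_distrib, ← hG]
    refine Finset.sum_congr rfl fun i _ => ?_
    simp
  · rw [Finset.sum_disjSum, ← Finset.sum_add_distrib, ← hM]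
    refine Finset.sum_congr rfl fun i _ => ?_
    simp only [Sum.elim_inl, Sum.elim_inr]
    field_simp
    ring

theorem TD2_dcB (hC : CSS.TRC_stmt) {ι : Type} (s : Finset ι) (A G p : ι → ℂ) (hG : ∑ i ∈ s, G i = 0)
    (hM : ∑ i ∈ s, (A i + G i * p i) = 0) (h : ℂ) (hh : h ≠ 0) : YPPS.DC (TD2_B s A G p h) := by
  classical
  refine ⟨⟨(s.image p ∪ s.image (fun i => p i + h) : Finset ℂ), Finset.finite_toSet _, ?_⟩, 0,
    (TD2_int hC s A G p hG hM h hh).integrableOn⟩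
  intro x hx
  have hx' : x ∉ s.image p ∪ s.image (fun i => p i + h) := fun h0 => hx (Finset.mem_coe.2 h0)
  rw [Finset.mem_union, not_or] at hx'
  have : DifferentiableAt ℂ (TD2_B s A G p h) x := by
    unfold TD2_B
    refine DifferentiableAt.fun_sum fun i hi => ?_
    have e1 : x - p i ≠ 0 := fun h0 => hx'.1 (Finset.mem_image.2 ⟨i, hi, (sub_eq_zero.1 h0).symm⟩)
    have e2 : x - (p i + h) ≠ 0 := fun h0 => hx'.2 (Finset.mem_image.2 ⟨i, hi, (sub_eq_zero.1 h0).symm⟩)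
    have d1 : DifferentiableAt ℂ (fun x : ℂ => (A i / h) / (x - (p i + h))) x :=
      (differentiableAt_const _).div (differentiableAt_id.sub_const _) e2
    have d2 : DifferentiableAt ℂ (fun x : ℂ => (G i - A i / h) / (x - p i)) x :=
      (differentiableAt_const _).div (differentiableAt_id.sub_const _) e1
    exact d1.add d2
  exact this.differentiableWithinAt

/-- the limit of the left side. -/
theorem TD2_lim (hC : CSS.TRC_stmt) (hS : YPPS.SMB_stmt) (f : SE) {ι : Type} (s : Finset ι) (A G p : ι → ℂ)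
    (hG : ∑ i ∈ s, G i = 0) (hM : ∑ i ∈ s, (A i + G i * p i) = 0) (z : ℂ)
    (hz : ∀ i ∈ s, z ≠ f.eval (p i)) :
    Tendsto (fun h : ℂ => TT f (TD2_B s A G p h) z) (𝓝[≠] 0) (𝓝 (TT f (TD2_B0 s A G p) z)) := by
  obtain ⟨η, hη, hsep⟩ := TD2_sep f s p z hz
  have hK : ∀ i : ι, Summable (fun y : pre f z => ‖1 / ((y : ℂ) - p i) ^ 3‖ / ‖fd f y‖ ^ 2) := fun i =>
    (hS f _ (TD2_dc3 (p i)) z).2
  set g : pre f z → ℝ := fun y => ∑ i ∈ s, 2 * ‖A i‖ * (‖1 / ((y : ℂ) - p i) ^ 3‖ / ‖fd f y‖ ^ 2) with hg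
  have hgs : Summable g := summable_sum fun i _ => (hK i).mul_left _
  -- the pointwise bound
  have hb : ∀ h : ℂ, h ≠ 0 → ‖h‖ ≤ η → ∀ y : pre f z,
      ‖(TD2_B s A G p h y - TD2_B0 s A G p y) / fd f y ^ 2‖ ≤ ‖h‖ * g y := by
    intro h hh hle y
    have e1 : ∀ i ∈ s, 2 * η ≤ ‖(y : ℂ) - p i‖ := fun i hi => hsep i hi y y.2
    have e2 : ∀ i ∈ s, ‖(y : ℂ) - p i‖ / 2 ≤ ‖(y : ℂ) - (p i + h)‖ := by
      intro i hi
      have : ‖(y : ℂ) - p i‖ - ‖h‖ ≤ ‖(y : ℂ) - p i - h‖ := norm_sub_norm_le _ _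
      have e3 := e1 i hi
      have e4 : (y : ℂ) - (p i + h) = (y : ℂ) - p i - h := by ring
      rw [e4]; linarith
    have p1 : ∀ i ∈ s, 0 < ‖(y : ℂ) - p i‖ := fun i hi => lt_of_lt_of_le (by positivity) (e1 i hi)
    have p2 : ∀ i ∈ s, 0 < ‖(y : ℂ) - (p i + h)‖ := fun i hi => lt_of_lt_of_le (by have := p1 i hi; positivity) (e2 i hi)
    rw [TD2_diff s A G p h y hh (fun i hi => norm_pos_iff.1 (p1 i hi)) (fun i hi => norm_pos_iff.1 (p2 i hi)),
      Finset.sum_div, hg, Finset.mul_sum]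
    refine (norm_sum_le _ _).trans (Finset.sum_le_sum fun i hi => ?_)
    rw [norm_div, norm_div, norm_mul, norm_mul, norm_pow, norm_pow, norm_div, norm_one, norm_pow]
    have q1 := p1 i hi
    have q2 := p2 i hi
    have q3 := e2 i hi
    have e5 : ‖A i‖ * ‖h‖ / (‖(y : ℂ) - (p i + h)‖ * ‖(y : ℂ) - p i‖ ^ 2) ≤
        ‖A i‖ * ‖h‖ / (‖(y : ℂ) - p i‖ / 2 * ‖(y : ℂ) - p i‖ ^ 2) := by
      refine div_le_div_of_nonneg_left (by positivity) (by positivity) ?_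
      exact mul_le_mul_of_nonneg_right q3 (by positivity)
    calc ‖A i‖ * ‖h‖ / (‖(y : ℂ) - (p i + h)‖ * ‖(y : ℂ) - p i‖ ^ 2) / ‖fd f y‖ ^ 2
        ≤ ‖A i‖ * ‖h‖ / (‖(y : ℂ) - p i‖ / 2 * ‖(y : ℂ) - p i‖ ^ 2) / ‖fd f y‖ ^ 2 :=
          div_le_div_of_nonneg_right e5 (by positivity)
      _ = ‖h‖ * (2 * ‖A i‖ * (1 / ‖(y : ℂ) - p i‖ ^ 3 / ‖fd f y‖ ^ 2)) := by
        have e6 : ‖A i‖ * ‖h‖ / (‖(y : ℂ) - p i‖ / 2 * ‖(y : ℂ) - p i‖ ^ 2) =
          ‖h‖ * (2 * ‖A i‖ * (1 / ‖(y : ℂ) - p i‖ ^ 3)) := by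
          field_simp
        rw [e6]; ring
  have hfin : ∀ h : ℂ, h ≠ 0 → ‖h‖ ≤ η → ‖TT f (TD2_B s A G p h) z - TT f (TD2_B0 s A G p) z‖ ≤
      ‖h‖ * ∑' y, g y := by
    intro h hh hle
    have s1 : Summable (fun y : pre f z => TD2_B s A G p h y / fd f y ^ 2) :=
      (hS f _ (TD2_dcB hC s A G p hG hM h hh) z).1
    have s2 : Summable (fun y : pre f z => (TD2_B s A G p h y - TD2_B0 s A G p y) / fd f y ^ 2) :=
      Summable.of_norm_bounded (hgs.mul_left _) (hb h hh hle)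
    have s3 : Summable (fun y : pre f z => TD2_B0 s A G p y / fd f y ^ 2) := by
      have := s1.sub s2
      refine this.congr fun y => ?_
      rw [← sub_div]; congr 1; ring
    have e : TT f (TD2_B s A G p h) z - TT f (TD2_B0 s A G p) z =
        ∑' y : pre f z, (TD2_B s A G p h y - TD2_B0 s A G p y) / fd f y ^ 2 := by
      change (∑' y : pre f z, TD2_B s A G p h y / fd f y ^ 2) - (∑' y : pre f z, TD2_B0 s A G p y / fd f y ^ 2) = _
      rw [← s1.tsum_sub s3]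
      refine tsum_congr fun y => ?_
      rw [sub_div]
    rw [e, ← tsum_mul_left]
    exact tsum_of_norm_bounded (hgs.mul_left ‖h‖).hasSum (hb h hh hle)
  rw [tendsto_iff_norm_sub_tendsto_zero]
  have hup : Tendsto (fun h : ℂ => ‖h‖ * ∑' y, g y) (𝓝[≠] 0) (𝓝 0) := by
    have : Tendsto (fun h : ℂ => ‖h‖ * ∑' y, g y) (𝓝 0) (𝓝 (‖(0 : ℂ)‖ * ∑' y, g y)) :=
      (continuous_norm.tendsto 0).mul_const _
    rw [norm_zero, zero_mul] at this
    exact this.mono_left nhdsWithin_le_nhds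
  refine squeeze_zero' (Eventually.of_forall fun _ => norm_nonneg _) ?_ hup
  have hball : ∀ᶠ h in 𝓝[≠] (0 : ℂ), h ∈ closedBall (0 : ℂ) η :=
    nhdsWithin_le_nhds (closedBall_mem_nhds 0 hη)
  filter_upwards [hball, self_mem_nhdsWithin] with h h1 h2
  exact hfin h h2 (by simpa using h1)

/-- the limit of the explicit part. -/
theorem TD2_exp (f : SE) {ι : Type} (s : Finset ι) (A G p : ι → ℂ) (hf : ∀ i ∈ s, fd f (p i) ≠ 0) (z : ℂ)
    (hz : ∀ i ∈ s, z ≠ f.eval (p i)) :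
    Tendsto (fun h : ℂ => ∑ i ∈ s, ((A i / h) / fd f (p i + h) / (z - f.eval (p i + h)) +
      (G i - A i / h) / fd f (p i) / (z - f.eval (p i)))) (𝓝[≠] 0)
      (𝓝 (∑ i ∈ s, (A i / (z - f.eval (p i)) ^ 2 +
        (G i / fd f (p i) - A i * fdd f (p i) / fd f (p i) ^ 2) / (z - f.eval (p i))))) := by
  refine tendsto_finsetSum s fun i hi => ?_
  have hf1 := hf i hi
  have hz1 : z - f.eval (p i) ≠ 0 := sub_ne_zero.2 (hz i hi)
  have d1 : HasDerivAt (fun w : ℂ => f.eval w) (fd f (p i)) (p i) := (f.dif (p i)).hasDerivAt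
  have d2 : HasDerivAt (fd f) (fdd f (p i)) (p i) := YPPS.fd_hasDeriv f (p i)
  have d3 : HasDerivAt (fun y : ℂ => fd f y * (z - f.eval y))
      (fdd f (p i) * (z - f.eval (p i)) + fd f (p i) * (0 - fd f (p i))) (p i) :=
    d2.mul ((hasDerivAt_const (p i) z).sub d1)
  have d4 := d3.inv (mul_ne_zero hf1 hz1)
  have d5 := d4.tendsto_slope_zero
  have e1 : (fun h : ℂ => (A i / h) / fd f (p i + h) / (z - f.eval (p i + h)) +
      (G i - A i / h) / fd f (p i) / (z - f.eval (p i))) = fun h : ℂ => A i * (h⁻¹ • ((fun y : ℂ => fd f y * (z - f.eval y))⁻¹ (p i + h)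
        - (fun y : ℂ => fd f y * (z - f.eval y))⁻¹ (p i))) + G i / fd f (p i) / (z - f.eval (p i)) := by
    funext h
    simp only [Pi.inv_apply, smul_eq_mul, mul_inv, div_eq_mul_inv]
    ring
  rw [e1]
  refine Tendsto.congr' (Eventually.of_forall fun _ => rfl) ?_
  have e2 : A i / (z - f.eval (p i)) ^ 2 + (G i / fd f (p i) - A i * fdd f (p i) / fd f (p i) ^ 2) / (z - f.eval (p i)) =
      A i * (-(fdd f (p i) * (z - f.eval (p i)) + fd f (p i) * (0 - fd f (p i))) / (fd f (p i) * (z - f.eval (p i))) ^ 2) +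
      G i / fd f (p i) / (z - f.eval (p i)) := by
    field_simp
    ring
  rw [e2]
  exact (d5.const_mul (A i)).add_const _

theorem TD2 (hE : CSS.TRE_stmt) (hC : CSS.TRC_stmt) (hS : YPPS.SMB_stmt) : TD2_stmt := by
  classical
  intro f ι s A G p hf hG hM
  have hex : ∀ h : ℂ, ∃ σ : ℂ → ℂ, h ≠ 0 → ∀ z : ℂ, z ∉ CV f → (∀ i ∈ s, z ≠ f.eval (p i)) →
      (∀ i ∈ s, z ≠ f.eval (p i + h)) → TT f (TD2_B s A G p h) z =
      ∑ i ∈ s, ((A i / h) / fd f (p i + h) / (z - f.eval (p i + h)) +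
      (G i - A i / h) / fd f (p i) / (z - f.eval (p i))) + ∑ v ∈ SV f, σ v / (z - v) := by
    intro h
    by_cases hh : h = 0
    · exact ⟨fun _ => 0, fun h0 => absurd hh h0⟩
    · have hI := TD2_int hC s A G p hG hM h hh
      rw [TD2_sum] at hI
      obtain ⟨σ, hσ⟩ := hE f (ι ⊕ ι) (s.disjSum s) _ _ hI
      refine ⟨σ, fun _ z hz h1 h2 => ?_⟩
      rw [TD2_sum]
      refine (hσ z hz ?_).trans ?_
      · intro j hj
        rcases Finset.mem_disjSum.1 hj with ⟨i, hi, rfl⟩ | ⟨i, hi, rfl⟩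
        · exact h2 i hi
        · exact h1 i hi
      · rw [Finset.sum_disjSum, ← Finset.sum_add_distrib]
        rfl
  choose σ hσ using hex
  let Z : Set ℂ := {z : ℂ | z ∉ CV f ∧ ∀ i ∈ s, z ≠ f.eval (p i)}
  let Λ : (↥(SV f) → ℂ) →ₗ[ℂ] (Z → ℂ) :=
    { toFun := fun τ z => ∑ v : ↥(SV f), τ v / ((z : ℂ) - v)
      map_add' := by
        intro a b
        funext z
        simp only [Pi.add_apply, add_div, Finset.sum_add_distrib]
      map_smul' := by
        intro c a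
        funext z
        simp only [Pi.smul_apply, smul_eq_mul, RingHom.id_apply, Finset.mul_sum, mul_div_assoc] }
  let L : Z → ℂ := fun z => TT f (TD2_B0 s A G p) z - ∑ i ∈ s, (A i / ((z : ℂ) - f.eval (p i)) ^ 2 +
        (G i / fd f (p i) - A i * fdd f (p i) / fd f (p i) ^ 2) / ((z : ℂ) - f.eval (p i)))
  have hcl : IsClosed ((LinearMap.range Λ : Submodule ℂ (Z → ℂ)) : Set (Z → ℂ)) :=
    Submodule.closed_of_finiteDimensional _
  have hlim : Tendsto (fun h : ℂ => Λ (fun v => σ h v)) (𝓝[≠] 0) (𝓝 L) := by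
    refine tendsto_pi_nhds.2 fun z => ?_
    have t1 := (TD2_lim hC hS f s A G p hG hM z z.2.2).sub (TD2_exp f s A G p hf z z.2.2)
    refine t1.congr' ?_
    have hev : ∀ᶠ h in 𝓝[≠] (0 : ℂ), ∀ i ∈ s, (z : ℂ) ≠ f.eval (p i + h) := by
      refine nhdsWithin_le_nhds ((Finset.eventually_all s).2 fun i hi => ?_)
      have hc : ContinuousAt (fun h : ℂ => f.eval (p i + h)) 0 := by
        have : Continuous (fun h : ℂ => f.f (p i + h)) := f.dif.continuous.comp (continuous_const.add continuous_id)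
        exact this.continuousAt
      have h1 : ∀ᶠ h in 𝓝 (0 : ℂ), f.eval (p i + h) ≠ z := by
        refine hc.eventually_ne ?_
        rw [add_zero]
        exact (z.2.2 i hi).symm
      filter_upwards [h1] with h hh using hh.symm
    filter_upwards [hev, self_mem_nhdsWithin] with h h1 h2
    have h3 := hσ h h2 z z.2.1 z.2.2 h1
    change _ = ∑ v : ↥(SV f), σ h v / ((z : ℂ) - v)
    rw [h3, Finset.sum_coe_sort (SV f) (fun v => σ h v / ((z : ℂ) - v))]
    ring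
  have hmem : L ∈ (LinearMap.range Λ : Submodule ℂ (Z → ℂ)) :=
    hcl.mem_of_tendsto hlim (Eventually.of_forall fun h => ⟨_, rfl⟩)
  obtain ⟨τ, hτ⟩ := hmem
  refine ⟨fun v => if hv : v ∈ SV f then τ ⟨v, hv⟩ else 0, fun z hz h1 => ?_⟩
  have h2 : Λ τ ⟨z, hz, h1⟩ = L ⟨z, hz, h1⟩ := by rw [hτ]
  have h3 : ∑ v : ↥(SV f), τ v / (z - v) = TT f (TD2_B0 s A G p) z - ∑ i ∈ s, (A i / (z - f.eval (p i)) ^ 2 +
        (G i / fd f (p i) - A i * fdd f (p i) / fd f (p i) ^ 2) / (z - f.eval (p i))) := h2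
  have h4 : ∑ v ∈ SV f, (if hv : v ∈ SV f then τ ⟨v, hv⟩ else 0) / (z - v) =
      ∑ v : ↥(SV f), τ v / (z - v) := by
    rw [← Finset.sum_coe_sort (SV f)]
    refine Finset.sum_congr rfl fun v _ => ?_
    rw [dif_pos v.2]
  rw [h4, h3]
  change TT f (TD2_B0 s A G p) z = _
  ring

end YW
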